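import Pool.Agent.Helper88.D4.Stmts

/-!
# Project D4 (MP_e1889a_ag): prime divisors for a torus of rank 2
-/

set_option autoImplicit false

namespace Pool.Agent.Helper80.D4

open Module Filter Topology Pool.Agent.Helper37.SD Pool.Agent.Helper20.TS Pool.Agent.Helper88.D4

variable {K : Type} [Field K] [Algebra ℂ K]

section Wt

variable {r : ℕ} {H : Fin r → Derivation ℂ K K}

theorem isW_mul {m m' : Fin r → ℤ} {x y : K} (hx : IsW H m x) (hy : IsW H m' y) :
    IsW H (m + m') (x * y) := by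
  intro i
  rw [Derivation.leibniz, hx i, hy i]
  simp only [Pi.add_apply, Int.cast_add, smul_eq_mul, Algebra.smul_def, map_add]
  ring

theorem isW_zpow {m : Fin r → ℤ} {x : K} (hx0 : x ≠ 0) (hx : IsW H m x) (n : ℤ) :
    IsW H (n • m) (x ^ n) := by
  intro i
  rw [Derivation.leibniz_zpow, hx i]
  simp only [Pi.smul_apply, smul_eq_mul, Int.cast_mul, zsmul_eq_mul]
  simp only [Algebra.smul_def, map_mul, map_intCast]
  rw [zpow_sub_one₀ hx0]
  field_simp

end Wt

section Val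

theorem val_one (u : RVal K) : u.val 1 = 0 := by
  have := u.map_const 1 one_ne_zero
  rwa [map_one] at this

theorem val_inv (u : RVal K) {x : K} (hx : x ≠ 0) : u.val x⁻¹ = -u.val x := by
  have h := u.map_mul x x⁻¹ hx (inv_ne_zero hx)
  rw [mul_inv_cancel₀ hx, val_one] at h
  linarith

theorem val_pow (u : RVal K) {x : K} (hx : x ≠ 0) (n : ℕ) : u.val (x ^ n) = n * u.val x := by
  induction n with
  | zero => simp [val_one]
  | succ n ih =>
    rw [pow_succ, u.map_mul _ _ (pow_ne_zero _ hx) hx, ih]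
    push_cast
    ring

theorem val_zpow (u : RVal K) {x : K} (hx : x ≠ 0) (n : ℤ) : u.val (x ^ n) = n * u.val x := by
  obtain ⟨k, rfl | rfl⟩ := n.eq_nat_or_neg
  · rw [zpow_natCast, val_pow u hx]
    simp
  · rw [zpow_neg, zpow_natCast, val_inv u (pow_ne_zero _ hx), val_pow u hx]
    push_cast
    ring

end Val

/-! ## the bracket -/

section Br

variable {J : Bra K}

theorem j1_add (h : IsAlt J) (y y' z w x : K) : J (y + y') z w x = J y z w x + J y' z w x := by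
  have e1 := h.s1 x (y + y') z w
  have e2 := h.s1 x y z w
  have e3 := h.s1 x y' z w
  rw [map_add] at e1
  linear_combination e1 - e2 - e3

theorem j1_smul (h : IsAlt J) (c : ℂ) (y z w x : K) : J (c • y) z w x = c • J y z w x := by
  have e1 := h.s1 x (c • y) z w
  have e2 := h.s1 x y z w
  rw [Derivation.map_smul] at e1
  rw [e2, smul_neg] at e1
  exact (neg_injective e1).symm

theorem j2 (h : IsAlt J) (y z w x : K) : J y z w x = -J z y w x := by
  rw [h.s2 z y w]; rfl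

theorem j3 (h : IsAlt J) (y z w x : K) : J y z w x = -J y w z x := by
  rw [h.s3 y w z]; rfl

theorem j2_add (h : IsAlt J) (y z z' w x : K) : J y (z + z') w x = J y z w x + J y z' w x := by
  rw [j2 h, j1_add h, j2 h z, j2 h z']
  ring

theorem j2_smul (h : IsAlt J) (c : ℂ) (y z w x : K) : J y (c • z) w x = c • J y z w x := by
  rw [j2 h, j1_smul h, j2 h z, smul_neg, neg_neg]

theorem j3_add (h : IsAlt J) (y z w w' x : K) : J y z (w + w') x = J y z w x + J y z w' x := by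
  rw [j3 h, j2_add h, j3 h y w, j3 h y w']
  ring

theorem j3_smul (h : IsAlt J) (c : ℂ) (y z w x : K) : J y z (c • w) x = c • J y z w x := by
  rw [j3 h, j2_smul h, j3 h y w, smul_neg, neg_neg]

theorem j1_zero (h : IsAlt J) (z w x : K) : J 0 z w x = 0 := by
  have := j1_smul h 0 0 z w x
  rwa [smul_zero, zero_smul] at this

theorem j2_zero (h : IsAlt J) (y w x : K) : J y 0 w x = 0 := by
  have := j2_smul h 0 y 0 w x
  rwa [smul_zero, zero_smul] at this

theorem j3_zero (h : IsAlt J) (y z x : K) : J y z 0 x = 0 := by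
  have := j3_smul h 0 y z 0 x
  rwa [smul_zero, zero_smul] at this

/-- `[·, y, z, w]` has a weight. -/
theorem lie_J (h : IsAlt J) {D : Derivation ℂ K K} {a b c e : ℂ} (hD : HomBra D a J) {y z w : K}
    (hy : D y = b • y) (hz : D z = c • z) (hw : D w = e • w) :
    ⁅D, J y z w⁆ = (b + c + e - a) • J y z w := by
  ext x
  rw [Derivation.commutator_apply, hD x y z w, hy, hz, hw, j1_smul h, j2_smul h, j3_smul h,
    Derivation.smul_apply]
  simp only [Algebra.smul_def, map_sub, map_add]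
  ring

end Br

/-! ## independent weights -/

theorem exists_indep {R : Subalgebra ℂ K} {ξ : Derivation ℂ K K} {H : Fin 2 → Derivation ℂ K K}
    {c : Fin 2 → ℝ} (hR : IsFrac R) (hT : Tor R ξ H c) :
    ∃ (x y : K) (m m' : Fin 2 → ℤ), x ∈ R ∧ y ∈ R ∧ x ≠ 0 ∧ y ≠ 0 ∧ IsW H m x ∧ IsW H m' y ∧
      m 0 * m' 1 ≠ m 1 * m' 0 := by
  by_contra hcon
  push Not at hcon
  -- a linear relation between the weights
  obtain ⟨p, q, hpq, hrel⟩ : ∃ p q : ℤ, ¬ (p = 0 ∧ q = 0) ∧
      ∀ (x : K) (m : Fin 2 → ℤ), x ∈ R → x ≠ 0 → IsW H m x → p * m 0 + q * m 1 = 0 := by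
    by_cases hall : ∀ (x : K) (m : Fin 2 → ℤ), x ∈ R → x ≠ 0 → IsW H m x → m 0 = 0 ∧ m 1 = 0
    · exact ⟨1, 0, by simp, fun x m h1 h2 h3 => by
        obtain ⟨h4, h5⟩ := hall x m h1 h2 h3
        rw [h4, h5]; ring⟩
    · push Not at hall
      obtain ⟨x, m, h1, h2, h3, h4⟩ := hall
      refine ⟨-m 1, m 0, fun h5 => ?_, fun y m' h6 h7 h8 => ?_⟩
      · exact h4 h5.2 (by linarith [h5.1])
      · have := hcon x y m m' h1 h6 h2 h7 h3 h8
        linarith
  have hz : (p : ℂ) • H 0 + (q : ℂ) • H 1 = 0 := by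
    refine der_eq_zero hR fun x hx => ?_
    refine Submodule.span_induction (p := fun x _ => ((p : ℂ) • H 0 + (q : ℂ) • H 1) x = 0)
      ?_ (map_zero _) (fun x y _ _ h1 h2 => by rw [map_add, h1, h2, add_zero])
      (fun t x _ h1 => by rw [Derivation.map_smul, h1, smul_zero]) (hT.span x hx)
    rintro y ⟨hy, m, hm⟩
    by_cases hy0 : y = 0
    · rw [hy0, map_zero]
    · rw [Derivation.add_apply, Derivation.smul_apply, Derivation.smul_apply, hm 0, hm 1,
        smul_smul, smul_smul, ← add_smul]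
      have := hrel y m hy hy0 hm
      have h2 : (p : ℂ) * (m 0 : ℂ) + (q : ℂ) * (m 1 : ℂ) = 0 := by exact_mod_cast this
      rw [h2, zero_smul]
  have hind := Fintype.linearIndependent_iff.mp hT.ind ![(p : ℂ), (q : ℂ)]
    (by rw [Fin.sum_univ_two]; exact hz)
  have h0 := hind 0
  have h1 := hind 1
  simp only [Matrix.cons_val_zero, Matrix.cons_val_one] at h0 h1
  exact hpq ⟨by exact_mod_cast h0, by exact_mod_cast h1⟩

/-! ## the bracket of homogeneous functions -/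

section Hom

variable {R : Subalgebra ℂ K} {J : Bra K} {H : Fin 2 → Derivation ℂ K K} {w₀ : Fin 2 → ℤ}

theorem isW_J (h : IsAlt J) (hJ : ∀ i, HomBra (H i) (w₀ i : ℂ) J) {m1 m2 m3 m4 : Fin 2 → ℤ}
    {y z w x : K} (hy : IsW H m1 y) (hz : IsW H m2 z) (hw : IsW H m3 w) (hx : IsW H m4 x) :
    IsW H (m1 + m2 + m3 + m4 - w₀) (J y z w x) := by
  intro i
  rw [hJ i x y z w, hy i, hz i, hw i, hx i, j1_smul h, j2_smul h, j3_smul h, Derivation.map_smul]
  simp only [Pi.add_apply, Pi.sub_apply, Int.cast_add, Int.cast_sub, Algebra.smul_def, map_sub,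
    map_add]
  ring

/-- The value of a 1-form of weight `χ` at `[·, y, z, w]`. -/
theorem isW_al (h : IsAlt J) (hJ : ∀ i, HomBra (H i) (w₀ i : ℂ) J) {ξ : Derivation ℂ K K}
    {χ : Fin 2 → ℤ} {α : Helper88.D4.One K} (hα : Al R ξ H χ α) {m1 m2 m3 : Fin 2 → ℤ}
    {y z w : K} (hy : IsW H m1 y) (hz : IsW H m2 z) (hw : IsW H m3 w) :
    IsW H (χ + (m1 + m2 + m3 - w₀)) (α (J y z w)) := by
  intro i
  have h1 := hα.wt i (J y z w)
  rw [lie_J h (hJ i) (hy i) (hz i) (hw i)] at h1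
  have h2 : α (((m1 i : ℂ) + (m2 i : ℂ) + (m3 i : ℂ) - (w₀ i : ℂ)) • J y z w) =
      ((m1 i : ℂ) + (m2 i : ℂ) + (m3 i : ℂ) - (w₀ i : ℂ)) • α (J y z w) := by
    rw [← algebraMap_smul K, map_smul, algebraMap_smul]
  rw [h2, sub_eq_iff_eq_add] at h1
  rw [h1, ← add_smul]
  simp only [Pi.add_apply, Pi.sub_apply, Int.cast_add, Int.cast_sub]

end Hom

/-- `S_PT` -/
theorem s_PT (hHT : S_HT) (hLD : S_LDpd) (hUN : S_UN) (hAI : S_AI) : S_PT := by
  intro K _ _ R ξ J a H c hC hT χ w₀ α hα hJ u hu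
  classical
  by_cases hfirst : ∃ (x y : K) (m m' : Fin 2 → ℤ), x ≠ 0 ∧ y ≠ 0 ∧ IsW H m x ∧ IsW H m' y ∧
      u.val x = 0 ∧ u.val y = 0 ∧ m 0 * m' 1 ≠ m 1 * m' 0
  · exact Or.inl hfirst
  refine Or.inr ?_
  obtain ⟨y1, y2, m1, m2, hy1R, hy2R, hy1, hy2, hm1, hm2, hdet⟩ := exists_indep hC.frac hT
  -- invariant functions have value zero
  have hinv : ∀ h : K, h ≠ 0 → IsW H 0 h → u.val h = 0 := by
    intro h h0 hh
    by_contra hne
    apply hfirst
    obtain ⟨e, he⟩ := hu.int h h0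
    obtain ⟨n1, hn1⟩ := hu.int y1 hy1
    obtain ⟨n2, hn2⟩ := hu.int y2 hy2
    have he0 : e ≠ 0 := by
      rintro rfl
      exact hne (by rw [he]; simp)
    have key : ∀ (y : K) (m : Fin 2 → ℤ) (n : ℤ), y ≠ 0 → IsW H m y → u.val y = n →
        (y ^ e * h ^ (-n)) ≠ 0 ∧ IsW H (e • m) (y ^ e * h ^ (-n)) ∧
          u.val (y ^ e * h ^ (-n)) = 0 := by
      intro y m n hy hm hn
      refine ⟨mul_ne_zero (zpow_ne_zero _ hy) (zpow_ne_zero _ h0), ?_, ?_⟩
      · have := isW_mul (isW_zpow hy hm e) (isW_zpow h0 hh (-n))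
        simpa using this
      · rw [u.map_mul _ _ (zpow_ne_zero _ hy) (zpow_ne_zero _ h0), val_zpow u hy, val_zpow u h0,
          hn, he]
        push_cast
        ring
    obtain ⟨a1, a2, a3⟩ := key y1 m1 n1 hy1 hm1 hn1
    obtain ⟨b1, b2, b3⟩ := key y2 m2 n2 hy2 hm2 hn2
    refine ⟨_, _, _, _, a1, b1, a2, b2, a3, b3, ?_⟩
    simp only [Pi.smul_apply, smul_eq_mul]
    intro h5
    apply hdet
    have : e * e * (m1 0 * m2 1 - m1 1 * m2 0) = 0 := by linear_combination h5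
    rcases mul_eq_zero.mp this with h6 | h6
    · exact absurd (mul_self_eq_zero.mp h6) he0
    · linarith
  -- the linear function
  set D : ℝ := (m1 0 : ℝ) * m2 1 - m1 1 * m2 0 with hD
  have hD0 : D ≠ 0 := by
    rw [hD]
    intro h
    apply hdet
    have : ((m1 0 * m2 1 - m1 1 * m2 0 : ℤ) : ℝ) = 0 := by push_cast; linarith
    have h2 : (m1 0 * m2 1 - m1 1 * m2 0 : ℤ) = 0 := by exact_mod_cast this
    linarith
  set ρ : Fin 2 → ℝ := ![(u.val y1 * m2 1 - u.val y2 * m1 1) / D,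
    (u.val y2 * m1 0 - u.val y1 * m2 0) / D] with hρ
  have hval : ∀ (m : Fin 2 → ℤ) (φ : K), φ ≠ 0 → IsW H m φ → u.val φ = ∑ i, ρ i * m i := by
    intro m φ hφ hm
    -- `φ ^ D = h y1 ^ A y2 ^ B`
    set Di : ℤ := m1 0 * m2 1 - m1 1 * m2 0 with hDi
    set A : ℤ := m 0 * m2 1 - m 1 * m2 0 with hA
    set B : ℤ := m1 0 * m 1 - m1 1 * m 0 with hB
    have hne : φ ^ Di * (y1 ^ (-A) * y2 ^ (-B)) ≠ 0 :=
      mul_ne_zero (zpow_ne_zero _ hφ) (mul_ne_zero (zpow_ne_zero _ hy1) (zpow_ne_zero _ hy2))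
    have hw : IsW H 0 (φ ^ Di * (y1 ^ (-A) * y2 ^ (-B))) := by
      have h1 := isW_mul (isW_zpow hφ hm Di)
        (isW_mul (isW_zpow hy1 hm1 (-A)) (isW_zpow hy2 hm2 (-B)))
      have h2 : Di • m + (-A • m1 + -B • m2) = 0 := by
        funext i
        simp only [Pi.add_apply, Pi.smul_apply, smul_eq_mul, Pi.zero_apply, hDi, hA, hB]
        fin_cases i
        · simp only [Fin.zero_eta]; ring
        · simp only [Fin.mk_one]; ring
      rwa [h2] at h1
    have h3 := hinv _ hne hw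
    rw [u.map_mul _ _ (zpow_ne_zero _ hφ) (mul_ne_zero (zpow_ne_zero _ hy1)
      (zpow_ne_zero _ hy2)), u.map_mul _ _ (zpow_ne_zero _ hy1) (zpow_ne_zero _ hy2),
      val_zpow u hφ, val_zpow u hy1, val_zpow u hy2] at h3
    have hDD : (Di : ℝ) = D := by rw [hDi, hD]; push_cast; ring
    have hAA : (A : ℝ) = m 0 * m2 1 - m 1 * m2 0 := by rw [hA]; push_cast; ring
    have hBB : (B : ℝ) = m1 0 * m 1 - m1 1 * m 0 := by rw [hB]; push_cast; ring
    rw [hDD] at h3
    push_cast at h3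
    rw [hAA, hBB] at h3
    rw [Fin.sum_univ_two, hρ]
    simp only [Matrix.cons_val_zero, Matrix.cons_val_one]
    field_simp
    linarith
  have hsum : ∀ m m' : Fin 2 → ℤ, ∑ i, ρ i * ((m + m') i : ℤ) =
      ∑ i, ρ i * m i + ∑ i, ρ i * m' i := by
    intro m m'
    rw [← Finset.sum_add_distrib]
    refine Finset.sum_congr rfl fun i _ => ?_
    rw [Pi.add_apply]
    push_cast
    ring
  have hsub : ∀ m m' : Fin 2 → ℤ, ∑ i, ρ i * ((m - m') i : ℤ) =
      ∑ i, ρ i * m i - ∑ i, ρ i * m' i := by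
    intro m m'
    rw [← Finset.sum_sub_distrib]
    refine Finset.sum_congr rfl fun i _ => ?_
    rw [Pi.sub_apply]
    push_cast
    ring
  -- a homogeneous function of positive value
  obtain ⟨s, ms, hsR, hs0, hsw, hspos⟩ : ∃ (s : K) (m : Fin 2 → ℤ), s ∈ R ∧ s ≠ 0 ∧ IsW H m s ∧
      0 < u.val s := by
    by_contra hno
    push Not at hno
    apply hfirst
    exact ⟨y1, y2, m1, m2, hy1, hy2, hm1, hm2,
      le_antisymm (hno y1 m1 hy1R hy1 hm1) (hu.nonneg y1 hy1R hy1),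
      le_antisymm (hno y2 m2 hy2R hy2 hm2) (hu.nonneg y2 hy2R hy2), hdet⟩
  obtain ⟨t, htR, ht0, ⟨mt, hmt⟩, htv⟩ :=
    hHT K R ξ 2 H c hC.toIsCone hT u hu s ms hsR hs0 hsw hspos
  have hal := hC.alt
  -- a homogeneous frame
  obtain ⟨x', hx'R, y', hy'R, z', hz'R, hJ'0, hJ'v⟩ := hUN K R ξ J a hC u hu t ht0 htv
  obtain ⟨x, y, z, mx, my, mz, hxR, hyR, hzR, hxw, hyw, hzw, hJ0, hJv⟩ :
      ∃ (x y z : K) (mx my mz : Fin 2 → ℤ), x ∈ R ∧ y ∈ R ∧ z ∈ R ∧ IsW H mx x ∧ IsW H my y ∧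
        IsW H mz z ∧ J x y z t ≠ 0 ∧ u.val (J x y z t) = 0 := by
    by_contra hno
    push Not at hno
    have step0 : ∀ x y z, (x ∈ R ∧ ∃ m, IsW H m x) → (y ∈ R ∧ ∃ m, IsW H m y) →
        (z ∈ R ∧ ∃ m, IsW H m z) → u.Ge 1 (J x y z t) := by
      rintro x y z ⟨hxR, mx, hx⟩ ⟨hyR, my, hy⟩ ⟨hzR, mz, hz⟩
      by_cases h0 : J x y z t = 0
      · exact Or.inl h0
      · have h1 := hno x y z mx my mz hxR hyR hzR hx hy hz h0
        obtain ⟨n, hn⟩ := hu.int _ h0
        have h2 := hu.nonneg _ (hC.reg t htR x hxR y hyR z hzR) h0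
        right
        rw [hn] at h1 h2 ⊢
        have h3 : (0 : ℤ) ≤ n := by exact_mod_cast h2
        have h4 : n ≠ 0 := fun h => h1 (by rw [h]; simp)
        have : (1 : ℤ) ≤ n := by omega
        exact_mod_cast this
    have step1 : ∀ x ∈ R, ∀ y z, (y ∈ R ∧ ∃ m, IsW H m y) → (z ∈ R ∧ ∃ m, IsW H m z) →
        u.Ge 1 (J x y z t) := by
      intro x hx y z hy hz
      refine Submodule.span_induction (p := fun x _ => u.Ge 1 (J x y z t))
        (fun x hx => step0 x y z hx hy hz) (Or.inl (j1_zero hal _ _ _))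
        (fun x x' _ _ h1 h2 => ?_) (fun c x _ h1 => ?_) (hT.span x hx)
      · rw [j1_add hal]; exact u.ge_add h1 h2
      · rw [j1_smul hal]; exact u.ge_smul c h1
    have step2 : ∀ x ∈ R, ∀ y ∈ R, ∀ z, (z ∈ R ∧ ∃ m, IsW H m z) → u.Ge 1 (J x y z t) := by
      intro x hx y hy z hz
      refine Submodule.span_induction (p := fun y _ => u.Ge 1 (J x y z t))
        (fun y hy => step1 x hx y z hy hz) (Or.inl (j2_zero hal _ _ _))
        (fun x x' _ _ h1 h2 => ?_) (fun c x _ h1 => ?_) (hT.span y hy)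
      · rw [j2_add hal]; exact u.ge_add h1 h2
      · rw [j2_smul hal]; exact u.ge_smul c h1
    have step3 : ∀ x ∈ R, ∀ y ∈ R, ∀ z ∈ R, u.Ge 1 (J x y z t) := by
      intro x hx y hy z hz
      refine Submodule.span_induction (p := fun z _ => u.Ge 1 (J x y z t))
        (fun z hz => step2 x hx y hy z hz) (Or.inl (j3_zero hal _ _ _))
        (fun x x' _ _ h1 h2 => ?_) (fun c x _ h1 => ?_) (hT.span z hz)
      · rw [j3_add hal]; exact u.ge_add h1 h2
      · rw [j3_smul hal]; exact u.ge_smul c h1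
    rcases step3 x' hx'R y' hy'R z' hz'R with h | h
    · exact hJ'0 h
    · rw [hJ'v] at h
      linarith
  have hx0 : x ≠ 0 := by
    rintro rfl
    exact hJ0 (j1_zero hal _ _ _)
  have hy0 : y ≠ 0 := by
    rintro rfl
    exact hJ0 (j2_zero hal _ _ _)
  have hz0 : z ≠ 0 := by
    rintro rfl
    exact hJ0 (j3_zero hal _ _ _)
  -- the weight of the volume form
  have hW := hval _ _ hJ0 (isW_J hal hJ hxw hyw hzw hmt)
  rw [hsub, hsum, hsum, hsum, hJv, ← hval _ _ hx0 hxw, ← hval _ _ hy0 hyw, ← hval _ _ hz0 hzw,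
    ← hval _ _ ht0 hmt, htv] at hW
  have hux := hu.nonneg x hxR hx0
  have huy := hu.nonneg y hyR hy0
  have huz := hu.nonneg z hzR hz0
  have hld : u.val x + u.val y + u.val z ≤ 0 := by
    rcases hLD K R ξ J a hC u hu t x y z ht0 hx0 hy0 hz0 with h | h
    · exact absurd h hJ0
    · rw [htv, hJv] at h
      linarith
  have hx1 : u.val x = 0 := by linarith
  have hy1' : u.val y = 0 := by linarith
  have hz1 : u.val z = 0 := by linarith
  have hw0 : ∑ i, ρ i * w₀ i = 1 := by linarith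
  refine ⟨ρ, hval, hw0, ?_, s, hsR, hs0, hspos, ms, hsw⟩
  -- the weight of `α`
  have hpres : ∀ y z w, y ∈ R → z ∈ R → w ∈ R → Pres R (J y z w) := fun y z w hy hz hw x hx =>
    hC.reg x hx y hy z hz w hw
  have hAl : ∀ (y z w : K) (m m' m'' : Fin 2 → ℤ), y ∈ R → z ∈ R → w ∈ R → y ≠ 0 → z ≠ 0 →
      w ≠ 0 → IsW H m y → IsW H m' z → IsW H m'' w → α (J y z w) ≠ 0 →
      0 ≤ u.val (α (J y z w)) ∧ u.val (α (J y z w)) =
        ∑ i, ρ i * χ i + (u.val y + u.val z + u.val w) - 1 := by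
    intro y z w m m' m'' hy hz hw hy0 hz0 hw0' hm hm' hm'' hne
    refine ⟨hu.nonneg _ (hα.reg _ (hpres y z w hy hz hw)) hne, ?_⟩
    rw [hval _ _ hne (isW_al hal hJ hα hm hm' hm''), hsum, hsub, hsum, hsum,
      ← hval _ _ hy0 hm, ← hval _ _ hz0 hm', ← hval _ _ hw0' hm'', hw0]
    ring
  have hdisj : α (J x y z) ≠ 0 ∨ α (J t y z) ≠ 0 ∨ α (J t x z) ≠ 0 ∨ α (J t x y) ≠ 0 := by
    by_contra hno
    push Not at hno
    obtain ⟨e1, e2, e3, e4⟩ := hno
    apply hα.ne
    refine LinearMap.ext fun E => ?_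
    have hb : brk J ![t, x, y, z] ≠ 0 := hJ0
    have hE := ((hAI K J hC.trdeg hal).2.1 ![t, x, y, z] hb).2 E
    rw [hE, map_sum, LinearMap.zero_apply, Fin.sum_univ_four]
    simp only [dfr, map_smul, Matrix.cons_val_zero, Matrix.cons_val_one, Matrix.cons_val_two,
      Matrix.cons_val_three, Matrix.head_cons, Matrix.tail_cons, e1, e2, e3, e4,
      smul_zero, add_zero, neg_smul, map_neg, neg_zero]
  have hint : ∀ w : K, w ≠ 0 → 0 ≤ u.val w → u.val w = 0 ∨ 1 ≤ u.val w := by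
    intro w hw h0
    obtain ⟨n, hn⟩ := hu.int w hw
    rw [hn] at h0 ⊢
    have h1 : (0 : ℤ) ≤ n := by exact_mod_cast h0
    rcases h1.eq_or_lt with h2 | h2
    · left; rw [← h2]; simp
    · right; exact_mod_cast h2
  rcases hdisj with h | h | h | h
  · obtain ⟨h1, h2⟩ := hAl x y z mx my mz hxR hyR hzR hx0 hy0 hz0 hxw hyw hzw h
    right
    rw [hx1, hy1', hz1] at h2
    linarith
  · obtain ⟨h1, h2⟩ := hAl t y z mt my mz htR hyR hzR ht0 hy0 hz0 hmt hyw hzw h
    have h3 := hint _ h h1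
    rw [htv, hy1', hz1] at h2
    rw [h2] at h3
    rcases h3 with h3 | h3
    · left; linarith
    · right; linarith
  · obtain ⟨h1, h2⟩ := hAl t x z mt mx mz htR hxR hzR ht0 hx0 hz0 hmt hxw hzw h
    have h3 := hint _ h h1
    rw [htv, hx1, hz1] at h2
    rw [h2] at h3
    rcases h3 with h3 | h3
    · left; linarith
    · right; linarith
  · obtain ⟨h1, h2⟩ := hAl t x y mt mx my htR hxR hyR ht0 hx0 hy0 hmt hxw hyw h
    have h3 := hint _ h h1
    rw [htv, hx1, hy1'] at h2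
    rw [h2] at h3
    rcases h3 with h3 | h3
    · left; linarith
    · right; linarith

end Pool.Agent.Helper80.D4
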