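import Pool.Agent.Helper11.D4.FrB

/-!
# Project D4 (MP_e1889a_ag): B1 for a torus of rank at least 3
-/

set_option autoImplicit false

namespace Pool.Agent.Helper80.D4

open Module Pool.Agent.Helper37.SD Pool.Agent.Helper20.TS Pool.Agent.Helper88.D4
  Pool.Agent.Helper11.D4

variable {K : Type} [Field K] [Algebra ℂ K]

theorem finrank_der (hAI : S_AI) {J : Bra K} (ht : Algebra.trdeg ℂ K = 4) (hJ : IsAlt J) :
    Module.Finite K (Derivation ℂ K K) ∧ finrank K (Derivation ℂ K K) = 4 := by
  obtain ⟨x, y, z, w, h⟩ := hJ.ne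
  have hb : brk J ![x, y, z, w] ≠ 0 := h
  obtain ⟨h1, h2⟩ := (hAI K J ht hJ).2.1 _ hb
  have hli : LinearIndependent K (dfr J ![x, y, z, w]) := by
    rw [Fintype.linearIndependent_iff]
    intro g hg j
    have h3 : (∑ i, g i • dfr J ![x, y, z, w] i) (![x, y, z, w] j) = 0 := by rw [hg]; rfl
    rw [der_sum_apply, Finset.sum_eq_single j] at h3
    · rwa [Derivation.smul_apply, h1, if_pos rfl, smul_eq_mul, mul_one] at h3
    · intro i _ hij
      rw [Derivation.smul_apply, h1, if_neg hij, smul_zero]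
    · intro h4
      exact absurd (Finset.mem_univ j) h4
  have hsp : ⊤ ≤ Submodule.span K (Set.range (dfr J ![x, y, z, w])) := by
    intro E _
    rw [h2 E]
    exact Submodule.sum_mem _ fun i _ => Submodule.smul_mem _ _ (Submodule.subset_span ⟨i, rfl⟩)
  let b := Basis.mk hli hsp
  exact ⟨Module.Finite.of_basis b, by rw [finrank_eq_card_basis b]; simp⟩

/-- a quotient of functions of the same weight -/
theorem div_inv {r : ℕ} {H : Fin r → Derivation ℂ K K} {m : Fin r → ℤ} {f g : K} (hf : IsW H m f)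
    (hg : IsW H m g) (i : Fin r) : H i (g / f) = 0 := by
  by_cases h0 : f = 0
  · rw [h0, div_zero, map_zero]
  · rw [der_div _ _ _ h0, hf i, hg i]
    simp only [Algebra.smul_def]
    ring

/-- `S_B1a` -/
theorem s_B1a (hB0 : S_B0) (hCNT : S_CNT) (hAI : S_AI) : S_B1a := by
  intro K _ _ R ξ J v a V r H c hC hM hT hr χ α hα h0
  obtain ⟨hfin, hrk⟩ := finrank_der hAI hC.trdeg hC.alt
  have hli := hB0 K R ξ r H c hC.frac hT
  have hr4 : r ≤ 4 := by
    have := hli.fintype_card_le_finrank
    rwa [Fintype.card_fin, hrk] at this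
  rcases hr.eq_or_lt with rfl | hr3
  · -- rank 3
    obtain ⟨m, _, hm, hmf⟩ := hCNT K R ξ J v a V 3 H c hC (isMin_of_isMinF hM) hT (by norm_num)
      le_rfl 1
    rw [Nat.sub_self, pow_zero, mul_one] at hm
    have hm2 : 1 < finrank ℂ (Wsp R H m) := by exact_mod_cast hm
    have hne : Nontrivial (Wsp R H m) := Module.nontrivial_of_finrank_pos (R := ℂ) (by omega)
    obtain ⟨f, hf⟩ := exists_ne (0 : Wsp R H m)
    obtain ⟨g, hfg⟩ := exists_linearIndependent_pair_of_one_lt_finrank hm2 hf
    have hf0 : (f : K) ≠ 0 := fun h => hf (Subtype.ext h)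
    have hh0 : ∀ i, H i ((g : K) / f) = 0 := div_inv f.2.2 g.2.2
    have hcst : ¬ Cst ((g : K) / f) := by
      rintro ⟨t, ht⟩
      rw [div_eq_iff hf0, ← Algebra.smul_def] at ht
      have h1 := (LinearIndependent.pair_iff.mp hfg) t (-1) (Subtype.ext (by
        rw [Submodule.coe_add, Submodule.coe_smul, Submodule.coe_smul, ht, neg_smul, one_smul,
          add_neg_cancel]
        rfl))
      exact neg_ne_zero.mpr one_ne_zero h1.2
    refine ⟨(g : K) / f, hh0, hcst, ?_⟩
    obtain ⟨x, y, z, hE⟩ := (hAI K J hC.trdeg hC.alt).2.2 _ hcst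
    have hcons : LinearIndependent K (Fin.cons (J x y z) H : Fin 4 → Derivation ℂ K K) := by
      rw [linearIndependent_finCons]
      refine ⟨hli, fun hmem => hE ?_⟩
      refine Submodule.span_induction (p := fun D _ => D ((g : K) / f) = 0) ?_ rfl
        (fun x y _ _ h1 h2 => by rw [Derivation.add_apply, h1, h2, add_zero])
        (fun t x _ h1 => by rw [Derivation.smul_apply, h1, smul_zero]) hmem
      rintro _ ⟨i, rfl⟩
      exact hh0 i
    have hsp := hcons.span_eq_top_of_card_eq_finrank' (by rw [Fintype.card_fin, hrk])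
    refine ⟨α (J x y z) / J x y z ((g : K) / f), fun D => ?_⟩
    have hD : D ∈ Submodule.span K (Set.range (Fin.cons (J x y z) H : Fin 4 → _)) := by
      rw [hsp]; exact Submodule.mem_top
    refine Submodule.span_induction
      (p := fun D _ => α D = α (J x y z) / J x y z ((g : K) / f) * D ((g : K) / f)) ?_
      (by rw [map_zero, Derivation.zero_apply, mul_zero])
      (fun x y _ _ h1 h2 => by rw [map_add, h1, h2, Derivation.add_apply, mul_add])
      (fun t x _ h1 => by
        rw [map_smul, h1, Derivation.smul_apply, smul_eq_mul, smul_eq_mul]; ring) hD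
    rintro _ ⟨i, rfl⟩
    refine Fin.cases ?_ (fun i => ?_) i
    · rw [Fin.cons_zero, div_mul_cancel₀ _ hE]
    · rw [Fin.cons_succ, h0 i, hh0 i, mul_zero]
  · obtain rfl : r = 4 := by omega
    exfalso
    apply hα.ne
    have hsp := hli.span_eq_top_of_card_eq_finrank' (by rw [Fintype.card_fin, hrk])
    refine LinearMap.ext fun D => ?_
    have hD : D ∈ Submodule.span K (Set.range H) := by rw [hsp]; exact Submodule.mem_top
    rw [LinearMap.zero_apply]
    refine Submodule.span_induction (p := fun D _ => α D = 0) ?_ (map_zero _)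
      (fun x y _ _ h1 h2 => by rw [map_add, h1, h2, add_zero])
      (fun t x _ h1 => by rw [map_smul, h1, smul_zero]) hD
    rintro _ ⟨i, rfl⟩
    exact h0 i

end Pool.Agent.Helper80.D4
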