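import Pool.Agent.Helper88.D4.Stmts6
import Pool.Agent.Helper88.D4.Gm
import Pool.Agent.Helper80.D4.Pt
import Pool.Agent.Helper94.D4.Wts
import Pool.Agent.Helper76.D4.PolLat
import Pool.Agent.Helper76.D4.Coef
import Pool.Agent.Helper85.D4.Rt
import Pool.Agent.Helper11.D4.EX1

/-!
# Project D4, stage 6: binary forms with a root of large multiplicity
-/

set_option autoImplicit false

namespace Pool.Agent.Helper80.D4

open Module Filter Topology Pool.Agent.Helper37.SD Pool.Agent.Helper20.TS Pool.Agent.Helper88.D4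
open Polynomial (C X derivative)
open Pool.Agent.Helper76.D4 (lin lin_ge lin_eval lin_pow_mul s_POL s_LAT)

section Weights

variable {K : Type} [Field K] [Algebra ℂ K] {ξ : Derivation ℂ K K}

theorem wt_eval {M : ℝ} {f : Polynomial K} (hf : ∀ i, ξ (f.coeff i) = (M : ℂ) • f.coeff i)
    (r : K) : ξ (f.eval r) = (M : ℂ) • f.eval r + (derivative f).eval r * ξ r := by
  have h1 : f.eval r = ∑ i ∈ Finset.range (f.natDegree + 1), f.coeff i * r ^ i :=
    Polynomial.eval_eq_sum_range r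
  have h2 : (derivative f).eval r =
      ∑ i ∈ Finset.range (f.natDegree + 1), f.coeff i * i * r ^ (i - 1) := by
    rw [Polynomial.derivative_eval, Polynomial.sum_over_range]
    intro n
    rw [zero_mul, zero_mul]
  rw [h1, h2, map_sum, Finset.smul_sum, Finset.sum_mul, ← Finset.sum_add_distrib]
  refine Finset.sum_congr rfl fun i _ => ?_
  rw [Derivation.leibniz, hf, Derivation.leibniz_pow]
  simp only [smul_eq_mul, nsmul_eq_mul]
  rw [mul_smul_comm, mul_comm (r ^ i) (f.coeff i)]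
  ring

theorem ew_mul {x y : K} {α β : ℂ} (hx : ξ x = α • x) (hy : ξ y = β • y) :
    ξ (x * y) = (α + β) • (x * y) := by
  rw [Derivation.leibniz, hx, hy]
  simp only [smul_eq_mul, Algebra.smul_def, map_add]
  ring

theorem ew_pow {x : K} {α : ℂ} (hx : ξ x = α • x) (n : ℕ) : ξ (x ^ n) = (n * α) • x ^ n := by
  induction n with
  | zero =>
    rw [pow_zero, Derivation.map_one_eq_zero, Nat.cast_zero, zero_mul, zero_smul]
  | succ n ih =>
    rw [pow_succ, ew_mul ih hx]
    congr 1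
    push_cast
    ring

theorem ew_inv {x : K} (hx0 : x ≠ 0) {α : ℂ} (hx : ξ x = α • x) : ξ x⁻¹ = (-α) • x⁻¹ := by
  have h1 : ξ (x * x⁻¹) = 0 := by rw [mul_inv_cancel₀ hx0, Derivation.map_one_eq_zero]
  rw [Derivation.leibniz, hx] at h1
  simp only [smul_eq_mul, Algebra.smul_def] at h1 ⊢
  have h2 : x * ξ x⁻¹ = -(x⁻¹ * (algebraMap ℂ K α * x)) := by linear_combination h1
  have h3 : ξ x⁻¹ = x⁻¹ * (x * ξ x⁻¹) := by rw [← mul_assoc, inv_mul_cancel₀ hx0, one_mul]
  rw [h3, h2, map_neg]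
  field_simp

end Weights

theorem val_neg {K : Type} [Field K] [Algebra ℂ K] (u : RVal K) {x : K} (hx : x ≠ 0) :
    u.val (-x) = u.val x := by
  have h1 : -x = algebraMap ℂ K (-1) * x := by rw [map_neg, map_one]; ring
  rw [h1, u.map_mul _ _ ((map_ne_zero _).2 (by norm_num)) hx, u.map_const _ (by norm_num), zero_add]

theorem s_MAJ (hCMP : S_CMP) (hL2 : S_L2) : S_MAJ := by
  intro K _ _ R ξ J v a V H c hC hM hQ hT s D P hFr f q M hq hf hfM hreg ρ hρ
  obtain ⟨r, i, g, -, hξr, hiq, hqi, hfg, hgdeg, hgr, hgM⟩ :=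
    Pool.Agent.Helper85.D4.NM.big_root hq hf hfM hρ
  -- the derivation `Z`
  obtain ⟨Z, hZ⟩ : ∃ Z : Derivation ℂ K K, Z = r • D 0 + (1 : K) • D 1 := ⟨_, rfl⟩
  have hZ0 : Z ≠ 0 := by
    intro h
    rw [hZ] at h
    exact one_ne_zero (hFr.ind r 1 h).2
  have hZx : ∀ y, Z y = r * D 0 y + D 1 y := by
    intro y
    rw [hZ, Derivation.add_apply, Derivation.smul_apply, Derivation.smul_apply, one_smul,
      smul_eq_mul]
  have hcom : ∀ j y, ξ (D j y) = D j (ξ y) := by
    intro j y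
    have h1 := congrArg (fun E : Derivation ℂ K K => E y) (hFr.com j)
    simp only [Derivation.commutator_apply, Derivation.coe_zero, Pi.zero_apply] at h1
    exact sub_eq_zero.1 h1
  have hξZ' : ∀ y, ξ (Z y) = Z (ξ y) := by
    intro y
    rw [hZx, hZx, map_add, Derivation.leibniz, hcom, hcom, hξr, smul_zero, add_zero, smul_eq_mul]
  have hξZ : ⁅ξ, Z⁆ = ((0 : ℝ) : ℂ) • Z := by
    ext y
    rw [Derivation.commutator_apply, hξZ', sub_self, Complex.ofReal_zero, zero_smul]
    rfl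
  have hξH : ∀ y, ξ y = (c 0 : ℂ) • H 0 y := by
    intro y
    rw [hT.xi, Fin.sum_univ_one, Derivation.smul_apply]
  have hc0 : (c 0 : ℂ) ≠ 0 := by
    intro h0
    apply xi_ne hC
    ext y
    rw [hξH, h0, zero_smul]
    rfl
  have hHZ : ⁅H 0, Z⁆ = ((0 : ℤ) : ℂ) • Z := by
    ext y
    rw [Derivation.commutator_apply, Int.cast_zero, zero_smul]
    have h1 := hξZ' y
    rw [hξH, hξH, Derivation.map_smul] at h1
    have h2 : (c 0 : ℂ) • (H 0 (Z y) - Z (H 0 y)) = 0 := by rw [smul_sub, h1, sub_self]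
    exact (smul_eq_zero.1 h2).resolve_left hc0
  -- the function `x`
  obtain ⟨x, N, b, hx0, hN, hxb, hxu⟩ := hCMP K R ξ J a H c hC hQ hT Z hZ0 0 hHZ
  have hpole : ∀ u, PDiv R u → ∃ t, Pole u Z t := fun u hu =>
    s_POL K R ξ hC.toIsCone u hu Z hZ0
  have hComp : Comp R Z x N := ⟨hx0, hN, fun u hu => by
    obtain ⟨t, ht⟩ := hpole u hu
    exact ⟨t, hxu u hu t ht, ht.1⟩⟩
  have hL := hL2 K R ξ J v a V H c hC hM hQ hT Z 0 x N b 0 hZ0 hHZ hComp hxb hξZ
  have hNR : (0 : ℝ) < N := by exact_mod_cast hN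
  -- the value at the root
  have hγξ : ξ (g.eval r) = (M : ℂ) • g.eval r := by
    rw [wt_eval hgM, hξr, mul_zero, add_zero]
  -- the order of the value at the root
  have key : ∀ u, PDiv R u → ∀ t : ℤ, Pole u Z t →
      (t : ℝ) * (2 * i - q) - i * u.val P ≤ u.val (g.eval r) := by
    intro u hu t ht
    rw [hZ] at ht
    obtain ⟨x', y', hE, hdet, hle⟩ := s_LAT K R ξ s D P hC.toIsCone hFr u hu r 1 t ht
    rw [← hZ] at ht
    obtain ⟨p, _, hp0, hp1⟩ := hu.unif
    obtain ⟨pt, hpt⟩ : ∃ pt, pt = p ^ t := ⟨_, rfl⟩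
    have hpt0 : pt ≠ 0 := by rw [hpt]; exact zpow_ne_zero _ hp0
    have hptv : u.val pt = t := by rw [hpt, val_zpow u hp0, hp1, mul_one]
    have h1 : URg u ((pt * r) • D 0 + pt • D 1) := by
      intro F hF
      have h2 : ((pt * r) • D 0 + pt • D 1 : Derivation ℂ K K) F = pt * Z F := by
        rw [hZx, Derivation.add_apply, Derivation.smul_apply, Derivation.smul_apply, smul_eq_mul,
          smul_eq_mul]
        ring
      rw [h2]
      by_cases hZF : Z F = 0
      · rw [hZF, mul_zero]; exact Or.inl rfl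
      · right
        rw [u.map_mul _ _ hpt0 hZF, hptv]
        have := (ht.1 F hF).resolve_left hZF
        linarith
    have h2 := lin_ge hreg hu hE h1 i
    have h3 : (q - i) + i = q := by omega
    have h4 := lin_pow_mul g (q - i) i hgdeg.le r x' y' (pt * r) pt
    rw [← hfg, h3] at h4
    have h5 : pt * r - r * pt = 0 := by ring
    have h6 : (lin f q x' y' (pt * r) pt).coeff i =
        (x' - r * y') ^ i * (pt ^ (q - i) * g.eval r) := by
      rw [h4, h5, map_zero, add_zero, mul_pow, mul_comm (C (x' - r * y') ^ i), mul_assoc,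
        ← Polynomial.C_pow]
      have h7 := Polynomial.coeff_X_pow_mul
        (C ((x' - r * y') ^ i) * lin g (q - i) x' y' (pt * r) pt) i 0
      rw [zero_add] at h7
      rw [h7, Polynomial.coeff_C_mul, Polynomial.coeff_zero_eq_eval_zero, lin_eval, mul_zero,
        mul_zero, zero_add, zero_add]
      congr 1
      unfold ev
      rw [Polynomial.eval_eq_sum_range' (Nat.lt_succ_of_le hgdeg.le), Finset.mul_sum]
      refine Finset.sum_congr rfl fun j hj => ?_
      have hj' : j ≤ q - i := Nat.lt_succ_iff.1 (Finset.mem_range.1 hj)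
      obtain ⟨d, hd⟩ := Nat.exists_eq_add_of_le hj'
      rw [hd, Nat.add_sub_cancel_left, pow_add, mul_pow]
      ring
    rw [h6] at h2
    have hδ : x' - r * y' ≠ 0 := by
      intro h0
      apply hdet
      linear_combination -h0
    have hδv : u.val (x' - r * y') = u.val (r * y' - 1 * x') := by
      have h7 : x' - r * y' = -(r * y' - 1 * x') := by ring
      rw [h7, val_neg u hdet]
    have hne : pt ^ (q - i) * g.eval r ≠ 0 := mul_ne_zero (pow_ne_zero _ hpt0) hgr
    have h7 := h2.resolve_left (mul_ne_zero (pow_ne_zero _ hδ) hne)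
    rw [u.map_mul _ _ (pow_ne_zero _ hδ) hne, u.map_mul _ _ (pow_ne_zero _ hpt0) hgr,
      val_pow u hδ, val_pow u hpt0, hptv, hδv, Nat.cast_sub hiq] at h7
    have h8 : (i : ℝ) * u.val (r * y' - 1 * x') ≤ i * (u.val P - t) :=
      mul_le_mul_of_nonneg_left (by linarith) (Nat.cast_nonneg i)
    linarith
  -- the regular function
  obtain ⟨e, he⟩ : ∃ e, 2 * i = q + e := Nat.exists_eq_add_of_le hqi.le
  have heR : (2 : ℝ) * i = q + e := by exact_mod_cast he
  obtain ⟨y, hy⟩ : ∃ y, y = g.eval r ^ N * P ^ (i * N) * x⁻¹ ^ e := ⟨_, rfl⟩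
  have hxi : x⁻¹ ≠ 0 := inv_ne_zero hx0
  have hy0 : y ≠ 0 := by
    rw [hy]
    exact mul_ne_zero (mul_ne_zero (pow_ne_zero _ hgr) (pow_ne_zero _ hFr.ne)) (pow_ne_zero _ hxi)
  have hyR : y ∈ R := by
    by_contra hcon
    obtain ⟨u, hu, hneg⟩ := Pool.Agent.Helper11.D4.s_EX1 K R hC.frac hC.fg hC.normal y hcon
    obtain ⟨t, ht⟩ := hpole u hu
    have h1 := key u hu t ht
    have h2 := hxu u hu t ht
    rw [hy, u.map_mul _ _ (mul_ne_zero (pow_ne_zero _ hgr) (pow_ne_zero _ hFr.ne))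
      (pow_ne_zero _ hxi), u.map_mul _ _ (pow_ne_zero _ hgr) (pow_ne_zero _ hFr.ne),
      val_pow u hgr, val_pow u hFr.ne, val_pow u hxi, val_inv u hx0, h2] at hneg
    have h3 := mul_le_mul_of_nonneg_left h1 hNR.le
    have h4 : (2 : ℝ) * i - q = e := by linarith
    rw [h4] at h3
    push_cast at hneg
    nlinarith
  have hyw : ξ y = ((N * M - i * N * s - e * b : ℝ) : ℂ) • y := by
    rw [hy, ew_mul (ew_mul (ew_pow hγξ N) (ew_pow hFr.wt (i * N))) (ew_pow (ew_inv hx0 hxb) e)]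
    congr 1
    push_cast
    ring
  have hpos := Pool.Agent.Helper94.D4.eig_nonneg hC.toIsCone hyR hy0 hyw
  -- the final inequality
  obtain ⟨m, hm⟩ : ∃ m, m = min (s / 2) (s - a / 2) := ⟨_, rfl⟩
  have hm1 : m ≤ s / 2 := by rw [hm]; exact min_le_left _ _
  have hm2 : m ≤ s - a / 2 := by rw [hm]; exact min_le_right _ _
  rw [← hm]
  have hbN : -(a / 2) ≤ b / N := by linarith
  have h1 : i * s + e * (b / N) ≤ M := by
    have h2 : N * (i * s + e * (b / N)) ≤ N * M := by
      have h3 : N * (i * s + e * (b / N)) = i * N * s + e * b := by field_simp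
      rw [h3]
      linarith
    exact le_of_mul_le_mul_left h2 hNR
  have he0 : (0 : ℝ) ≤ e := Nat.cast_nonneg e
  have h2 : (e : ℝ) * (-(a / 2)) ≤ e * (b / N) := mul_le_mul_of_nonneg_left hbN he0
  have h3 : (e : ℝ) * m ≤ e * (s - a / 2) := mul_le_mul_of_nonneg_left hm2 he0
  have hqi' : (0 : ℝ) ≤ q - i := by
    have : (i : ℝ) ≤ q := by exact_mod_cast hiq
    linarith
  have h4 : ((q : ℝ) - i) * (2 * m) ≤ (q - i) * s :=
    mul_le_mul_of_nonneg_left (by linarith) hqi'
  have h5 : (q : ℝ) * m = e * m + (q - i) * (2 * m) := by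
    have : (e : ℝ) = 2 * i - q := by linarith
    rw [this]
    ring
  have h6 : (i : ℝ) * s = e * s + (q - i) * s := by
    have : (e : ℝ) = 2 * i - q := by linarith
    rw [this]
    ring
  rw [h5]
  nlinarith

end Pool.Agent.Helper80.D4
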