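import Pool.Agent.Helper76.D4.Stmts7
import Pool.Agent.Helper80.D4.Maj

/-!
# Project D4, stage 7: binary forms with a root of large multiplicity
-/

set_option autoImplicit false

namespace Pool.Agent.Helper80.D4

open Module Filter Topology Pool.Agent.Helper37.SD Pool.Agent.Helper20.TS Pool.Agent.Helper88.D4
open Polynomial (C X derivative)
open Pool.Agent.Helper76.D4 (lin lin_ge lin_eval lin_pow_mul s_POL s_LAT S_L2x S_MAx Rg)

theorem s_MAx (hL2 : S_L2x) : S_MAx := by
  intro K _ _ R ξ J v a V H c hC hM hT s D P hFr f q M hq hf hfM hreg ρ hρ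
  obtain ⟨r, i, g, -, hξr, hiq, hqi, hfg, hgdeg, hgr, hgM⟩ :=
    Pool.Agent.Helper85.D4.NM.big_root hq hf hfM hρ
  -- the derivation `Z`
  obtain ⟨Z, hZ⟩ : ∃ Z : Derivation ℂ K K, Z = r • D 0 + (1 : K) • D 1 := ⟨_, rfl⟩
  have hZ0 : Z ≠ 0 := by
    intro h
    rw [hZ] at h
    exact one_ne_zero (hFr.ind r 1 h).2
  have hZx : ∀ y, Z y = r * D 0 y + D 1 y := by
    intro y
    rw [hZ, Derivation.add_apply, Derivation.smul_apply, Derivation.smul_apply, one_smul,
      smul_eq_mul]
  have hcom : ∀ j y, ξ (D j y) = D j (ξ y) := by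
    intro j y
    have h1 := congrArg (fun E : Derivation ℂ K K => E y) (hFr.com j)
    simp only [Derivation.commutator_apply, Derivation.coe_zero, Pi.zero_apply] at h1
    exact sub_eq_zero.1 h1
  have hξZ' : ∀ y, ξ (Z y) = Z (ξ y) := by
    intro y
    rw [hZx, hZx, map_add, Derivation.leibniz, hcom, hcom, hξr, smul_zero, add_zero, smul_eq_mul]
  have hξZ : ⁅ξ, Z⁆ = ((0 : ℝ) : ℂ) • Z := by
    ext y
    rw [Derivation.commutator_apply, hξZ', sub_self, Complex.ofReal_zero, zero_smul]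
    rfl
  have hξH : ∀ y, ξ y = (c 0 : ℂ) • H 0 y := by
    intro y
    rw [hT.xi, Fin.sum_univ_one, Derivation.smul_apply]
  have hc0 : (c 0 : ℂ) ≠ 0 := by
    intro h0
    apply xi_ne hC
    ext y
    rw [hξH, h0, zero_smul]
    rfl
  have hHZ : ⁅H 0, Z⁆ = ((0 : ℤ) : ℂ) • Z := by
    ext y
    rw [Derivation.commutator_apply, Int.cast_zero, zero_smul]
    have h1 := hξZ' y
    rw [hξH, hξH, Derivation.map_smul] at h1
    have h2 : (c 0 : ℂ) • (H 0 (Z y) - Z (H 0 y)) = 0 := by rw [smul_sub, h1, sub_self]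
    exact (smul_eq_zero.1 h2).resolve_left hc0
  have hpole : ∀ u, PDiv R u → ∃ t, Pole u Z t := fun u hu =>
    s_POL K R ξ hC.toIsCone u hu Z hZ0
  -- the value at the root
  have hγξ : ξ (g.eval r) = (M : ℂ) • g.eval r := by
    rw [wt_eval hgM, hξr, mul_zero, add_zero]
  -- the order of the value at the root
  have key : ∀ u, PDiv R u → ∀ t : ℤ, Pole u Z t →
      (t : ℝ) * (2 * i - q) - i * u.val P ≤ u.val (g.eval r) := by
    intro u hu t ht
    rw [hZ] at ht
    obtain ⟨x', y', hE, hdet, hle⟩ := s_LAT K R ξ s D P hC.toIsCone hFr u hu r 1 t ht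
    rw [← hZ] at ht
    obtain ⟨p, _, hp0, hp1⟩ := hu.unif
    obtain ⟨pt, hpt⟩ : ∃ pt, pt = p ^ t := ⟨_, rfl⟩
    have hpt0 : pt ≠ 0 := by rw [hpt]; exact zpow_ne_zero _ hp0
    have hptv : u.val pt = t := by rw [hpt, val_zpow u hp0, hp1, mul_one]
    have h1 : URg u ((pt * r) • D 0 + pt • D 1) := by
      intro F hF
      have h2 : ((pt * r) • D 0 + pt • D 1 : Derivation ℂ K K) F = pt * Z F := by
        rw [hZx, Derivation.add_apply, Derivation.smul_apply, Derivation.smul_apply, smul_eq_mul,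
          smul_eq_mul]
        ring
      rw [h2]
      by_cases hZF : Z F = 0
      · rw [hZF, mul_zero]; exact Or.inl rfl
      · right
        rw [u.map_mul _ _ hpt0 hZF, hptv]
        have := (ht.1 F hF).resolve_left hZF
        linarith
    have h2 := lin_ge hreg hu hE h1 i
    have h3 : (q - i) + i = q := by omega
    have h4 := lin_pow_mul g (q - i) i hgdeg.le r x' y' (pt * r) pt
    rw [← hfg, h3] at h4
    have h5 : pt * r - r * pt = 0 := by ring
    have h6 : (lin f q x' y' (pt * r) pt).coeff i =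
        (x' - r * y') ^ i * (pt ^ (q - i) * g.eval r) := by
      rw [h4, h5, map_zero, add_zero, mul_pow, mul_comm (C (x' - r * y') ^ i), mul_assoc,
        ← Polynomial.C_pow]
      have h7 := Polynomial.coeff_X_pow_mul
        (C ((x' - r * y') ^ i) * lin g (q - i) x' y' (pt * r) pt) i 0
      rw [zero_add] at h7
      rw [h7, Polynomial.coeff_C_mul, Polynomial.coeff_zero_eq_eval_zero, lin_eval, mul_zero,
        mul_zero, zero_add, zero_add]
      congr 1
      unfold ev
      rw [Polynomial.eval_eq_sum_range' (Nat.lt_succ_of_le hgdeg.le), Finset.mul_sum]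
      refine Finset.sum_congr rfl fun j hj => ?_
      have hj' : j ≤ q - i := Nat.lt_succ_iff.1 (Finset.mem_range.1 hj)
      obtain ⟨d, hd⟩ := Nat.exists_eq_add_of_le hj'
      rw [hd, Nat.add_sub_cancel_left, pow_add, mul_pow]
      ring
    rw [h6] at h2
    have hδ : x' - r * y' ≠ 0 := by
      intro h0
      apply hdet
      linear_combination -h0
    have hδv : u.val (x' - r * y') = u.val (r * y' - 1 * x') := by
      have h7 : x' - r * y' = -(r * y' - 1 * x') := by ring
      rw [h7, val_neg u hdet]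
    have hne : pt ^ (q - i) * g.eval r ≠ 0 := mul_ne_zero (pow_ne_zero _ hpt0) hgr
    have h7 := h2.resolve_left (mul_ne_zero (pow_ne_zero _ hδ) hne)
    rw [u.map_mul _ _ (pow_ne_zero _ hδ) hne, u.map_mul _ _ (pow_ne_zero _ hpt0) hgr,
      val_pow u hδ, val_pow u hpt0, hptv, hδv, Nat.cast_sub hiq] at h7
    have h8 : (i : ℝ) * u.val (r * y' - 1 * x') ≤ i * (u.val P - t) :=
      mul_le_mul_of_nonneg_left (by linarith) (Nat.cast_nonneg i)
    linarith
  -- the function `x`
  obtain ⟨e, he⟩ : ∃ e, 2 * i = q + e := Nat.exists_eq_add_of_le hqi.le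
  have he0' : 0 < e := by omega
  have heR : (2 : ℝ) * i = q + e := by exact_mod_cast he
  obtain ⟨x, hx⟩ : ∃ x, x = g.eval r * P ^ i := ⟨_, rfl⟩
  have hx0 : x ≠ 0 := by
    rw [hx]
    exact mul_ne_zero hgr (pow_ne_zero _ hFr.ne)
  have hRg : Rg R Z x e := ⟨hx0, he0', fun u hu => by
    obtain ⟨t, ht⟩ := hpole u hu
    refine ⟨t, ?_, ht.1⟩
    have h1 := key u hu t ht
    rw [hx, u.map_mul _ _ hgr (pow_ne_zero _ hFr.ne), val_pow u hFr.ne]
    have h4 : (2 : ℝ) * i - q = e := by linarith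
    rw [h4] at h1
    linarith⟩
  have hxw : ξ x = ((M - i * s : ℝ) : ℂ) • x := by
    rw [hx, ew_mul hγξ (ew_pow hFr.wt i)]
    congr 1
    push_cast
    ring
  have hL := hL2 K R ξ J v a V H c hC hM hT Z 0 x e (M - i * s) 0 hZ0 hHZ hRg hxw hξZ
  -- the final inequality
  obtain ⟨m, hm⟩ : ∃ m, m = min (s / 2) (s - a / 2) := ⟨_, rfl⟩
  have hm1 : m ≤ s / 2 := by rw [hm]; exact min_le_left _ _
  have hm2 : m ≤ s - a / 2 := by rw [hm]; exact min_le_right _ _
  rw [← hm]
  have heR0 : (0 : ℝ) < e := by exact_mod_cast he0'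
  have h1 : i * s + e * (-(a / 2)) ≤ M := by
    have h2 : -(a / 2) ≤ (M - i * s) / e := by linarith
    rw [le_div_iff₀ heR0] at h2
    linarith
  have he0 : (0 : ℝ) ≤ e := Nat.cast_nonneg e
  have h3 : (e : ℝ) * m ≤ e * (s - a / 2) := mul_le_mul_of_nonneg_left hm2 he0
  have hqi' : (0 : ℝ) ≤ q - i := by
    have : (i : ℝ) ≤ q := by exact_mod_cast hiq
    linarith
  have h4 : ((q : ℝ) - i) * (2 * m) ≤ (q - i) * s :=
    mul_le_mul_of_nonneg_left (by linarith) hqi'
  have h5 : (q : ℝ) * m = e * m + (q - i) * (2 * m) := by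
    have : (e : ℝ) = 2 * i - q := by linarith
    rw [this]
    ring
  have h6 : (i : ℝ) * s = e * s + (q - i) * s := by
    have : (e : ℝ) = 2 * i - q := by linarith
    rw [this]
    ring
  rw [h5]
  nlinarith

end Pool.Agent.Helper80.D4
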