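import Pool.Agent.Helper88.D4.Stmts5
import Pool.Agent.Helper80.D4.Pt

/-!
# Project D4 (MP_e1889a_ag): prime divisors for a torus of rank 2, without a 1-form
-/

set_option autoImplicit false

namespace Pool.Agent.Helper80.D4

open Module Filter Topology Pool.Agent.Helper37.SD Pool.Agent.Helper20.TS Pool.Agent.Helper88.D4

/-- `S_PTz` -/
theorem s_PTz (hHT : S_HT) (hLD : S_LDpd) (hUN : S_UN) : S_PTz := by
  intro K _ _ R ξ J a H c hC hT w₀ hJ u hu
  classical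
  by_cases hfirst : ∃ (x y : K) (m m' : Fin 2 → ℤ), x ≠ 0 ∧ y ≠ 0 ∧ IsW H m x ∧ IsW H m' y ∧
      u.val x = 0 ∧ u.val y = 0 ∧ m 0 * m' 1 ≠ m 1 * m' 0
  · exact Or.inl hfirst
  refine Or.inr ?_
  obtain ⟨y1, y2, m1, m2, hy1R, hy2R, hy1, hy2, hm1, hm2, hdet⟩ := exists_indep hC.frac hT
  -- invariant functions have value zero
  have hinv : ∀ h : K, h ≠ 0 → IsW H 0 h → u.val h = 0 := by
    intro h h0 hh
    by_contra hne
    apply hfirst
    obtain ⟨e, he⟩ := hu.int h h0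
    obtain ⟨n1, hn1⟩ := hu.int y1 hy1
    obtain ⟨n2, hn2⟩ := hu.int y2 hy2
    have he0 : e ≠ 0 := by
      rintro rfl
      exact hne (by rw [he]; simp)
    have key : ∀ (y : K) (m : Fin 2 → ℤ) (n : ℤ), y ≠ 0 → IsW H m y → u.val y = n →
        (y ^ e * h ^ (-n)) ≠ 0 ∧ IsW H (e • m) (y ^ e * h ^ (-n)) ∧
          u.val (y ^ e * h ^ (-n)) = 0 := by
      intro y m n hy hm hn
      refine ⟨mul_ne_zero (zpow_ne_zero _ hy) (zpow_ne_zero _ h0), ?_, ?_⟩
      · have := isW_mul (isW_zpow hy hm e) (isW_zpow h0 hh (-n))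
        simpa using this
      · rw [u.map_mul _ _ (zpow_ne_zero _ hy) (zpow_ne_zero _ h0), val_zpow u hy, val_zpow u h0,
          hn, he]
        push_cast
        ring
    obtain ⟨a1, a2, a3⟩ := key y1 m1 n1 hy1 hm1 hn1
    obtain ⟨b1, b2, b3⟩ := key y2 m2 n2 hy2 hm2 hn2
    refine ⟨_, _, _, _, a1, b1, a2, b2, a3, b3, ?_⟩
    simp only [Pi.smul_apply, smul_eq_mul]
    intro h5
    apply hdet
    have : e * e * (m1 0 * m2 1 - m1 1 * m2 0) = 0 := by linear_combination h5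
    rcases mul_eq_zero.mp this with h6 | h6
    · exact absurd (mul_self_eq_zero.mp h6) he0
    · linarith
  -- the linear function
  set D : ℝ := (m1 0 : ℝ) * m2 1 - m1 1 * m2 0 with hD
  have hD0 : D ≠ 0 := by
    rw [hD]
    intro h
    apply hdet
    have : ((m1 0 * m2 1 - m1 1 * m2 0 : ℤ) : ℝ) = 0 := by push_cast; linarith
    have h2 : (m1 0 * m2 1 - m1 1 * m2 0 : ℤ) = 0 := by exact_mod_cast this
    linarith
  set ρ : Fin 2 → ℝ := ![(u.val y1 * m2 1 - u.val y2 * m1 1) / D,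
    (u.val y2 * m1 0 - u.val y1 * m2 0) / D] with hρ
  have hval : ∀ (m : Fin 2 → ℤ) (φ : K), φ ≠ 0 → IsW H m φ → u.val φ = ∑ i, ρ i * m i := by
    intro m φ hφ hm
    -- `φ ^ D = h y1 ^ A y2 ^ B`
    set Di : ℤ := m1 0 * m2 1 - m1 1 * m2 0 with hDi
    set A : ℤ := m 0 * m2 1 - m 1 * m2 0 with hA
    set B : ℤ := m1 0 * m 1 - m1 1 * m 0 with hB
    have hne : φ ^ Di * (y1 ^ (-A) * y2 ^ (-B)) ≠ 0 :=
      mul_ne_zero (zpow_ne_zero _ hφ) (mul_ne_zero (zpow_ne_zero _ hy1) (zpow_ne_zero _ hy2))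
    have hw : IsW H 0 (φ ^ Di * (y1 ^ (-A) * y2 ^ (-B))) := by
      have h1 := isW_mul (isW_zpow hφ hm Di)
        (isW_mul (isW_zpow hy1 hm1 (-A)) (isW_zpow hy2 hm2 (-B)))
      have h2 : Di • m + (-A • m1 + -B • m2) = 0 := by
        funext i
        simp only [Pi.add_apply, Pi.smul_apply, smul_eq_mul, Pi.zero_apply, hDi, hA, hB]
        fin_cases i
        · simp only [Fin.zero_eta]; ring
        · simp only [Fin.mk_one]; ring
      rwa [h2] at h1
    have h3 := hinv _ hne hw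
    rw [u.map_mul _ _ (zpow_ne_zero _ hφ) (mul_ne_zero (zpow_ne_zero _ hy1)
      (zpow_ne_zero _ hy2)), u.map_mul _ _ (zpow_ne_zero _ hy1) (zpow_ne_zero _ hy2),
      val_zpow u hφ, val_zpow u hy1, val_zpow u hy2] at h3
    have hDD : (Di : ℝ) = D := by rw [hDi, hD]; push_cast; ring
    have hAA : (A : ℝ) = m 0 * m2 1 - m 1 * m2 0 := by rw [hA]; push_cast; ring
    have hBB : (B : ℝ) = m1 0 * m 1 - m1 1 * m 0 := by rw [hB]; push_cast; ring
    rw [hDD] at h3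
    push_cast at h3
    rw [hAA, hBB] at h3
    rw [Fin.sum_univ_two, hρ]
    simp only [Matrix.cons_val_zero, Matrix.cons_val_one]
    field_simp
    linarith
  have hsum : ∀ m m' : Fin 2 → ℤ, ∑ i, ρ i * ((m + m') i : ℤ) =
      ∑ i, ρ i * m i + ∑ i, ρ i * m' i := by
    intro m m'
    rw [← Finset.sum_add_distrib]
    refine Finset.sum_congr rfl fun i _ => ?_
    rw [Pi.add_apply]
    push_cast
    ring
  have hsub : ∀ m m' : Fin 2 → ℤ, ∑ i, ρ i * ((m - m') i : ℤ) =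
      ∑ i, ρ i * m i - ∑ i, ρ i * m' i := by
    intro m m'
    rw [← Finset.sum_sub_distrib]
    refine Finset.sum_congr rfl fun i _ => ?_
    rw [Pi.sub_apply]
    push_cast
    ring
  -- a homogeneous function of positive value
  obtain ⟨s, ms, hsR, hs0, hsw, hspos⟩ : ∃ (s : K) (m : Fin 2 → ℤ), s ∈ R ∧ s ≠ 0 ∧ IsW H m s ∧
      0 < u.val s := by
    by_contra hno
    push Not at hno
    apply hfirst
    exact ⟨y1, y2, m1, m2, hy1, hy2, hm1, hm2,
      le_antisymm (hno y1 m1 hy1R hy1 hm1) (hu.nonneg y1 hy1R hy1),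
      le_antisymm (hno y2 m2 hy2R hy2 hm2) (hu.nonneg y2 hy2R hy2), hdet⟩
  obtain ⟨t, htR, ht0, ⟨mt, hmt⟩, htv⟩ :=
    hHT K R ξ 2 H c hC.toIsCone hT u hu s ms hsR hs0 hsw hspos
  have hal := hC.alt
  -- a homogeneous frame
  obtain ⟨x', hx'R, y', hy'R, z', hz'R, hJ'0, hJ'v⟩ := hUN K R ξ J a hC u hu t ht0 htv
  obtain ⟨x, y, z, mx, my, mz, hxR, hyR, hzR, hxw, hyw, hzw, hJ0, hJv⟩ :
      ∃ (x y z : K) (mx my mz : Fin 2 → ℤ), x ∈ R ∧ y ∈ R ∧ z ∈ R ∧ IsW H mx x ∧ IsW H my y ∧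
        IsW H mz z ∧ J x y z t ≠ 0 ∧ u.val (J x y z t) = 0 := by
    by_contra hno
    push Not at hno
    have step0 : ∀ x y z, (x ∈ R ∧ ∃ m, IsW H m x) → (y ∈ R ∧ ∃ m, IsW H m y) →
        (z ∈ R ∧ ∃ m, IsW H m z) → u.Ge 1 (J x y z t) := by
      rintro x y z ⟨hxR, mx, hx⟩ ⟨hyR, my, hy⟩ ⟨hzR, mz, hz⟩
      by_cases h0 : J x y z t = 0
      · exact Or.inl h0
      · have h1 := hno x y z mx my mz hxR hyR hzR hx hy hz h0
        obtain ⟨n, hn⟩ := hu.int _ h0
        have h2 := hu.nonneg _ (hC.reg t htR x hxR y hyR z hzR) h0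
        right
        rw [hn] at h1 h2 ⊢
        have h3 : (0 : ℤ) ≤ n := by exact_mod_cast h2
        have h4 : n ≠ 0 := fun h => h1 (by rw [h]; simp)
        have : (1 : ℤ) ≤ n := by omega
        exact_mod_cast this
    have step1 : ∀ x ∈ R, ∀ y z, (y ∈ R ∧ ∃ m, IsW H m y) → (z ∈ R ∧ ∃ m, IsW H m z) →
        u.Ge 1 (J x y z t) := by
      intro x hx y z hy hz
      refine Submodule.span_induction (p := fun x _ => u.Ge 1 (J x y z t))
        (fun x hx => step0 x y z hx hy hz) (Or.inl (j1_zero hal _ _ _))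
        (fun x x' _ _ h1 h2 => ?_) (fun c x _ h1 => ?_) (hT.span x hx)
      · rw [j1_add hal]; exact u.ge_add h1 h2
      · rw [j1_smul hal]; exact u.ge_smul c h1
    have step2 : ∀ x ∈ R, ∀ y ∈ R, ∀ z, (z ∈ R ∧ ∃ m, IsW H m z) → u.Ge 1 (J x y z t) := by
      intro x hx y hy z hz
      refine Submodule.span_induction (p := fun y _ => u.Ge 1 (J x y z t))
        (fun y hy => step1 x hx y z hy hz) (Or.inl (j2_zero hal _ _ _))
        (fun x x' _ _ h1 h2 => ?_) (fun c x _ h1 => ?_) (hT.span y hy)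
      · rw [j2_add hal]; exact u.ge_add h1 h2
      · rw [j2_smul hal]; exact u.ge_smul c h1
    have step3 : ∀ x ∈ R, ∀ y ∈ R, ∀ z ∈ R, u.Ge 1 (J x y z t) := by
      intro x hx y hy z hz
      refine Submodule.span_induction (p := fun z _ => u.Ge 1 (J x y z t))
        (fun z hz => step2 x hx y hy z hz) (Or.inl (j3_zero hal _ _ _))
        (fun x x' _ _ h1 h2 => ?_) (fun c x _ h1 => ?_) (hT.span z hz)
      · rw [j3_add hal]; exact u.ge_add h1 h2
      · rw [j3_smul hal]; exact u.ge_smul c h1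
    rcases step3 x' hx'R y' hy'R z' hz'R with h | h
    · exact hJ'0 h
    · rw [hJ'v] at h
      linarith
  have hx0 : x ≠ 0 := by
    rintro rfl
    exact hJ0 (j1_zero hal _ _ _)
  have hy0 : y ≠ 0 := by
    rintro rfl
    exact hJ0 (j2_zero hal _ _ _)
  have hz0 : z ≠ 0 := by
    rintro rfl
    exact hJ0 (j3_zero hal _ _ _)
  -- the weight of the volume form
  have hW := hval _ _ hJ0 (isW_J hal hJ hxw hyw hzw hmt)
  rw [hsub, hsum, hsum, hsum, hJv, ← hval _ _ hx0 hxw, ← hval _ _ hy0 hyw, ← hval _ _ hz0 hzw,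
    ← hval _ _ ht0 hmt, htv] at hW
  have hux := hu.nonneg x hxR hx0
  have huy := hu.nonneg y hyR hy0
  have huz := hu.nonneg z hzR hz0
  have hld : u.val x + u.val y + u.val z ≤ 0 := by
    rcases hLD K R ξ J a hC u hu t x y z ht0 hx0 hy0 hz0 with h | h
    · exact absurd h hJ0
    · rw [htv, hJv] at h
      linarith
  have hx1 : u.val x = 0 := by linarith
  have hy1' : u.val y = 0 := by linarith
  have hz1 : u.val z = 0 := by linarith
  have hw0 : ∑ i, ρ i * w₀ i = 1 := by linarith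
  exact ⟨ρ, hval, hw0⟩

end Pool.Agent.Helper80.D4
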